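import Mathlib
import Pool.Agent.R158.CubeEmb
import Pool.Agent.R158.BiLip

/-!
# Bi-Lipschitz Hamming cubes in dense sets: the exponent is larger than one
-/

open Filter

namespace Pool.Agent.Results.MP_1fa774_co.Superlinear

/-- `f` is `(1+ε)`-bi-Lipschitz: for some real `r > 0`,
`r ‖x-y‖ ≤ ‖f x - f y‖ ≤ (1+ε) r ‖x-y‖` for all `x, y` (Hamming distances). -/
def IsBiLip (ε : ℝ) {k N : ℕ} (f : (Fin k → Bool) → (Fin N → Bool)) : Prop :=
  ∃ r : ℝ, 0 < r ∧ ∀ x y, r * (hammingDist x y : ℝ) ≤ hammingDist (f x) (f y) ∧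
    (hammingDist (f x) (f y) : ℝ) ≤ (1 + ε) * r * hammingDist x y

/-- Every subset of `{0,1}^N` with at least `δ 2^N` elements contains the image of `{0,1}^k`
under some `(1+ε)`-bi-Lipschitz map. -/
def HasCubes (ε δ : ℝ) (k N : ℕ) : Prop :=
  ∀ D : Finset (Fin N → Bool), δ * 2 ^ N ≤ (D.card : ℝ) →
    ∃ f : (Fin k → Bool) → (Fin N → Bool), IsBiLip ε f ∧ ∀ x, f x ∈ D

/-- `Emb(1+ε, k, δ)`: the least `N` with the property above. -/
noncomputable def Emb (ε : ℝ) (k : ℕ) (δ : ℝ) : ℕ := sInf {N | HasCubes ε δ k N}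

open Pool.Agent.R158 Pool.Agent.R158.CubeEmb Pool.Agent.R158.BiLip

lemma dist_pt {ι : Type*} [Fintype ι] [DecidableEq ι] {k r : ℕ} (a : ι → Bool)
    (B : Fin k → Finset ι) (hr : ∀ j, (B j).card = r)
    (hd : ∀ i j, i ≠ j → Disjoint (B i) (B j)) (x y : Fin k → Bool) :
    hammingDist (pt a B x) (pt a B y) = r * hammingDist x y := by
  unfold hammingDist
  have h1 : (Finset.univ.filter fun i => pt a B x i ≠ pt a B y i)
      = (Finset.univ.filter fun j => x j ≠ y j).biUnion B := by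
    ext i
    simp only [Finset.mem_filter, Finset.mem_univ, true_and, Finset.mem_biUnion]
    have huniq : ∀ j j', i ∈ B j → i ∈ B j' → j = j' := by
      intro j j' hj hj'
      by_contra hne
      exact Finset.disjoint_left.1 (hd j j' hne) hj hj'
    by_cases hi : ∃ j, i ∈ B j
    · obtain ⟨j, hj⟩ := hi
      have e : ∀ z : Fin k → Bool, (∃ l, z l = true ∧ i ∈ B l) ↔ z j = true := by
        intro z
        constructor
        · rintro ⟨l, hl, hl'⟩
          rwa [huniq j l hj hl']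
        · intro h; exact ⟨j, h, hj⟩
      have e2 : (∃ l, x l ≠ y l ∧ i ∈ B l) ↔ x j ≠ y j := by
        constructor
        · rintro ⟨l, hl, hl'⟩
          rwa [huniq j l hj hl']
        · intro h; exact ⟨j, h, hj⟩
      rw [e2]
      simp only [pt, e]
      cases a i <;> cases x j <;> cases y j <;> simp
    · have e : ∀ z : Fin k → Bool, ¬ (∃ l, z l = true ∧ i ∈ B l) := by
        rintro z ⟨l, _, hl'⟩
        exact hi ⟨l, hl'⟩
      have e2 : ¬ (∃ l, x l ≠ y l ∧ i ∈ B l) := by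
        rintro ⟨l, _, hl'⟩
        exact hi ⟨l, hl'⟩
      simp [pt, e, e2]
  rw [h1, Finset.card_biUnion]
  · rw [Finset.sum_congr rfl fun j _ => hr j, Finset.sum_const, smul_eq_mul, mul_comm]
  · intro i _ j _ hij
    exact hd i j hij

/-- `Emb` is attained: the defining set is not empty. -/
lemma hasCubes_emb {δ ε : ℝ} (hδ0 : 0 < δ) (hδ1 : δ < 1) (hε : 0 < ε) (k : ℕ) :
    HasCubes ε δ k (Emb ε k δ) := by
  suffices h : ∃ N, HasCubes ε δ k N from Nat.sInf_mem (s := {N | HasCubes ε δ k N}) h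
  have hpos : (0 : ℝ) < (δ / 2) ^ (2 ^ k) := by positivity
  obtain ⟨m, hm⟩ := exists_pow_lt_of_lt_one hpos (show (1 / 2 : ℝ) < 1 by norm_num)
  set r : ℕ := 2 * (m + 1) with hr
  have hrm : (1 / 2 : ℝ) ^ r ≤ (δ / 2) ^ (2 ^ k) := by
    refine le_trans ?_ hm.le
    exact pow_le_pow_of_le_one (by norm_num) (by norm_num) (by omega)
  refine ⟨(36 + k) * r, fun D hD => ?_⟩
  obtain ⟨a, B, _, hBr, hBd, hpt⟩ := iterate (ι := Fin ((36 + k) * r)) (r := r)
    (even_two_mul _) (by omega) k Finset.univ (by simp) D δ hδ0 (by linarith) hrm (by simpa using hD)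
  refine ⟨pt a B, ⟨r, by positivity, fun x y => ?_⟩, hpt⟩
  rw [dist_pt a B hBr hBd]
  push_cast
  have h1 : (0 : ℝ) ≤ (r : ℝ) * hammingDist x y := by positivity
  constructor
  · exact le_rfl
  · nlinarith

/-- arithmetic of the contradiction -/
lemma arith {κ r ε p A T k L B : ℝ} (hκ : κ = 1 - ε / 2) (hκ0 : 0 < κ) (hε0 : 0 < ε) (hε : ε < 2)
    (hr : 0 < r) (hr3 : 1 / 3 ≤ r) (hrT : r < T) (hT1 : 1 ≤ T) (hp0 : 0 < p)
    (hp1 : A * T < p) (hp2 : p ≤ 2 * (A * T)) (hA : 0 < A) (hA1 : 144 / κ ≤ A) (hk : 0 < k)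
    (hTk : T ^ 8 ≤ k) (hL0 : 0 ≤ L) (hLB : L ≤ B * T ^ 3) (hB : 0 < B)
    (hobs : k * r * (p * (1 - ε / 2) - 8 * ((1 + ε) ^ 2 * r)) ≤ p ^ 2 * L ^ 2) :
    T * κ ≤ 12 * A * B ^ 2 := by
  have hε9 : (1 + ε) ^ 2 ≤ 9 := by nlinarith
  have hAκ : 144 ≤ A * κ := by
    rw [div_le_iff₀ hκ0] at hA1
    exact hA1
  have h1 : 8 * ((1 + ε) ^ 2 * r) ≤ p * κ / 2 := by
    have e1 : (1 + ε) ^ 2 * r ≤ 9 * T :=
      calc (1 + ε) ^ 2 * r ≤ 9 * r := mul_le_mul_of_nonneg_right hε9 hr.le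
        _ ≤ 9 * T := by linarith
    have e2 : 144 * T ≤ p * κ :=
      calc 144 * T ≤ (A * κ) * T := mul_le_mul_of_nonneg_right hAκ (by linarith)
        _ = (A * T) * κ := by ring
        _ ≤ p * κ := mul_le_mul_of_nonneg_right hp1.le hκ0.le
    linarith
  have h2 : k * r * (p * κ / 2) ≤ p ^ 2 * L ^ 2 := by
    refine le_trans ?_ hobs
    have : 0 ≤ k * r := by positivity
    apply mul_le_mul_of_nonneg_left _ this
    rw [← hκ]
    linarith
  have h3 : k * κ ≤ 6 * p * L ^ 2 := by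
    have e1 : k * (1 / 3) * (p * κ / 2) ≤ p ^ 2 * L ^ 2 := by
      refine le_trans ?_ h2
      gcongr
    have e2 : p * (k * κ) ≤ p * (6 * p * L ^ 2) := by nlinarith
    exact le_of_mul_le_mul_left e2 hp0
  have h4 : T ^ 8 * κ ≤ 12 * A * B ^ 2 * T ^ 7 := by
    calc T ^ 8 * κ ≤ k * κ := mul_le_mul_of_nonneg_right hTk hκ0.le
      _ ≤ 6 * p * L ^ 2 := h3
      _ ≤ 6 * (2 * (A * T)) * (B * T ^ 3) ^ 2 := by gcongr
      _ = _ := by ring
  have h7 : 0 < T ^ 7 := by positivity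
  have e1 : T ^ 7 * (T * κ) ≤ T ^ 7 * (12 * A * B ^ 2) := by
    calc T ^ 7 * (T * κ) = T ^ 8 * κ := by ring
      _ ≤ 12 * A * B ^ 2 * T ^ 7 := h4
      _ = _ := by ring
  exact le_of_mul_le_mul_left e1 h7

/-- Main lower bound. -/
lemma lower {δ ε : ℝ} (hδ1 : δ < 1) (hε0 : 0 < ε) (hε : ε < 2) :
    ∃ T₀ : ℕ, ∀ T k N : ℕ, T₀ < T → T ^ 8 ≤ k → k < (T + 1) ^ 8 → HasCubes ε δ k N →
      T * k ≤ N := by
  set κ : ℝ := 1 - ε / 2 with hκ
  have hκ0 : 0 < κ := by rw [hκ]; linarith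
  set A : ℕ := ⌈144 / κ⌉₊ with hA
  have hA1 : 144 / κ ≤ A := Nat.le_ceil _
  have hApos : 0 < A := Nat.ceil_pos.2 (by positivity)
  have h1δ : 0 < 1 - δ := by linarith
  set B : ℝ := 12 * (A : ℝ) ^ 2 / (1 - δ) + 1 with hB
  have hBpos : 0 < B := by positivity
  set T₀ : ℕ := ⌈12 * A * B ^ 2 / κ⌉₊ with hT₀
  refine ⟨T₀, fun T k N hT hTk hkT hcubes => ?_⟩
  by_contra hcon
  push Not at hcon
  have hTpos : 0 < T := by omega
  have hTr : (1 : ℝ) ≤ T := by exact_mod_cast hTpos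
  -- the prime
  obtain ⟨p, hp, hp1, hp2⟩ := Nat.exists_prime_lt_and_le_two_mul (A * T) (by positivity)
  have hpf : Fact p.Prime := ⟨hp⟩
  have hTp : T + 1 ≤ p := by
    have : T ≤ A * T := Nat.le_mul_of_pos_left T hApos
    omega
  have hNp : N ≤ p ^ 9 := by
    have h1 : T * k ≤ (T + 1) * (T + 1) ^ 8 := Nat.mul_le_mul (by omega) hkT.le
    have h2 : (T + 1) * (T + 1) ^ 8 = (T + 1) ^ 9 := by ring
    have h3 : (T + 1) ^ 9 ≤ p ^ 9 := Nat.pow_le_pow_left hTp 9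
    omega
  set L : ℕ := ⌈12 * (A : ℝ) ^ 2 * (T : ℝ) ^ 3 / (1 - δ)⌉₊ with hL
  have hL1 : 12 * (A : ℝ) ^ 2 * (T : ℝ) ^ 3 / (1 - δ) ≤ L := Nat.le_ceil _
  have hL2 : (L : ℝ) < 12 * (A : ℝ) ^ 2 * (T : ℝ) ^ 3 / (1 - δ) + 1 :=
    Nat.ceil_lt_add_one (by positivity)
  have hLpos : 0 < L := Nat.ceil_pos.2 (by positivity)
  have hp2r : (p : ℝ) ≤ 2 * (A * T) := by exact_mod_cast hp2
  have hp1r : (A : ℝ) * T < p := by exact_mod_cast hp1
  have hp0 : (0 : ℝ) < p := by exact_mod_cast hp.pos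
  have hdens : (p : ℝ) ^ 2 * ((3 * T : ℕ) : ℝ) ≤ (1 - δ) * L := by
    rw [div_le_iff₀ h1δ] at hL1
    have : (p : ℝ) ^ 2 ≤ (2 * (A * T)) ^ 2 := by gcongr
    push_cast
    nlinarith
  obtain ⟨D, hD1, hD2⟩ := exists_dense (k := k) (d := 9) (g := 3 * T) hNp hLpos (by positivity) hdens
  obtain ⟨f, ⟨r, hr, hf⟩, hfD⟩ := hcubes D hD1
  -- scale bound
  have hkpos : 0 < k := lt_of_lt_of_le (by positivity) hTk
  have hkr : (0 : ℝ) < k := by exact_mod_cast hkpos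
  have hrT : r < T := by
    have h1 := (hf (fun _ => false) (Walsh.add (fun _ => false) ones)).1
    rw [dist_ones] at h1
    have h2 : (hammingDist (f fun _ => false) (f (Walsh.add (fun _ => false) ones)) : ℝ) ≤ N := by
      have := hammingDist_le_card_fintype (x := f fun _ => false)
        (y := f (Walsh.add (fun _ => false) ones))
      rw [Fintype.card_fin] at this
      exact_mod_cast this
    have h3 : (N : ℝ) < T * k := by exact_mod_cast hcon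
    have h4 : r * k < T * k := by linarith
    exact lt_of_mul_lt_mul_right h4 hkr.le
  have hr3 : 1 / 3 ≤ r := by
    have i : Fin k := ⟨0, hkpos⟩
    have h1 := hf (fun _ => false) (Walsh.add (fun _ => false) (Walsh.ind {i}))
    rw [dist_flip] at h1
    have h2 : (0 : ℝ) < (hammingDist (f fun _ => false)
        (f (Walsh.add (fun _ => false) (Walsh.ind {i}))) : ℝ) := by
      refine lt_of_lt_of_le ?_ h1.1
      simpa using hr
    have h3 : (1 : ℝ) ≤ (hammingDist (f fun _ => false)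
        (f (Walsh.add (fun _ => false) (Walsh.ind {i}))) : ℝ) := by
      have h4 : 0 < hammingDist (f fun _ => false)
        (f (Walsh.add (fun _ => false) (Walsh.ind {i}))) := by exact_mod_cast h2
      exact_mod_cast h4
    have h5 : 1 ≤ (1 + ε) * r := by
      refine h3.trans (h1.2.trans (le_of_eq ?_))
      simp
    nlinarith
  have hobs := hD2 f r ε hf hfD (by
    push_cast
    nlinarith)
  -- contradiction
  have hLB : (L : ℝ) ≤ B * T ^ 3 := by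
    have : (1 : ℝ) ≤ (T : ℝ) ^ 3 := one_le_pow₀ hTr
    have e1 : B * T ^ 3 = 12 * (A : ℝ) ^ 2 * (T : ℝ) ^ 3 / (1 - δ) + T ^ 3 := by
      rw [hB]; ring
    rw [e1]
    linarith
  have hkT8 : (T : ℝ) ^ 8 ≤ k := by exact_mod_cast hTk
  have e8 : ((9 - 1 : ℕ) : ℝ) = 8 := by norm_num
  rw [e8] at hobs
  have h5 : (T : ℝ) * κ ≤ 12 * A * B ^ 2 :=
    arith hκ hκ0 hε0 hε hr hr3 hrT hTr hp0 hp1r hp2r (by exact_mod_cast hApos) hA1 hkr hkT8
      (by positivity) hLB hBpos hobs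
  have h6 : (T : ℝ) ≤ 12 * A * B ^ 2 / κ := by
    rw [le_div_iff₀ hκ0]; exact h5
  have h7 : (T : ℝ) ≤ T₀ := h6.trans (Nat.le_ceil _)
  have h8 : T ≤ T₀ := by exact_mod_cast h7
  omega

/-- **The exponent of `Emb(1+ε, k, δ)` is at least `9/8`, for all `0 < δ < 1`, `0 < ε < 2`.** -/
theorem result (δ ε : ℝ) (hδ0 : 0 < δ) (hδ1 : δ < 1) (hε0 : 0 < ε) (hε2 : ε < 2) :
    (∀ k, HasCubes ε δ k (Emb ε k δ)) ∧
    ((9 / 8 : ℝ) : EReal) ≤
      liminf (fun k : ℕ => ((Real.log (Emb ε k δ) / Real.log k : ℝ) : EReal)) atTop := by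
  refine ⟨hasCubes_emb hδ0 hδ1 hε0, ?_⟩
  obtain ⟨T₀, hT₀⟩ := lower hδ1 hε0 hε2
  -- comparison function
  have hlim : Tendsto (fun k : ℕ => ((9 / 8 - Real.log 2 / Real.log k : ℝ) : EReal)) atTop
      (nhds ((9 / 8 : ℝ) : EReal)) := by
    rw [EReal.tendsto_coe]
    have h1 : Tendsto (fun k : ℕ => Real.log 2 / Real.log (k : ℝ)) atTop (nhds 0) :=
      Tendsto.div_atTop tendsto_const_nhds (Real.tendsto_log_atTop.comp tendsto_natCast_atTop_atTop)
    simpa using tendsto_const_nhds.sub h1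
  rw [← hlim.liminf_eq]
  refine liminf_le_liminf ?_
  filter_upwards [eventually_ge_atTop ((T₀ + 2) ^ 8)] with k hk
  rw [EReal.coe_le_coe_iff]
  -- the eighth root
  set T : ℕ := Nat.sqrt (Nat.sqrt (Nat.sqrt k)) with hTdef
  have hT1 : T ^ 8 ≤ k := by
    have e1 := Nat.sqrt_le' k
    have e2 := Nat.sqrt_le' (Nat.sqrt k)
    have e3 := Nat.sqrt_le' (Nat.sqrt (Nat.sqrt k))
    calc T ^ 8 = ((T ^ 2) ^ 2) ^ 2 := by ring
      _ ≤ ((Nat.sqrt (Nat.sqrt k)) ^ 2) ^ 2 := by gcongr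
      _ ≤ (Nat.sqrt k) ^ 2 := by gcongr
      _ ≤ k := e1
  have hT2 : k < (T + 1) ^ 8 := by
    have e1 := Nat.lt_succ_sqrt' k
    have e2 := Nat.lt_succ_sqrt' (Nat.sqrt k)
    have e3 := Nat.lt_succ_sqrt' (Nat.sqrt (Nat.sqrt k))
    simp only [Nat.succ_eq_add_one, ← hTdef] at e1 e2 e3
    calc k < (Nat.sqrt k + 1) ^ 2 := e1
      _ ≤ ((Nat.sqrt (Nat.sqrt k) + 1) ^ 2) ^ 2 := by gcongr; omega
      _ ≤ (((T + 1) ^ 2) ^ 2) ^ 2 := by gcongr; omega
      _ = (T + 1) ^ 8 := by ring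
  have hTT₀ : T₀ < T := by
    by_contra hcon
    push Not at hcon
    have : (T + 1) ^ 8 ≤ (T₀ + 2) ^ 8 := Nat.pow_le_pow_left (by omega) 8
    omega
  have hmain := hT₀ T k (Emb ε k δ) hTT₀ hT1 hT2 (hasCubes_emb hδ0 hδ1 hε0 k)
  have hk2 : 2 ≤ k := by
    have h1 : 2 ^ 8 ≤ (T₀ + 2) ^ 8 := Nat.pow_le_pow_left (by omega) 8
    omega
  have hkr : (2 : ℝ) ≤ k := by exact_mod_cast hk2
  have hlogk : 0 < Real.log k := Real.log_pos (by linarith)
  have hTr : (1 : ℝ) ≤ T := by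
    have : 1 ≤ T := by omega
    exact_mod_cast this
  rw [le_div_iff₀ hlogk, sub_mul, div_mul_cancel₀ _ hlogk.ne']
  -- log T + log 2 ≥ (1/8) log k
  have h1 : Real.log k ≤ 8 * (Real.log T + Real.log 2) := by
    have e1 : (k : ℝ) ≤ (2 * T) ^ 8 := by
      have h2 : (k : ℝ) < (T + 1) ^ 8 := by exact_mod_cast hT2
      have h3 : ((T : ℝ) + 1) ^ 8 ≤ (2 * T) ^ 8 := by gcongr; linarith
      linarith
    have e2 := Real.log_le_log (by linarith) e1
    rw [Real.log_pow, Real.log_mul (by norm_num) (by positivity)] at e2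
    push_cast at e2
    linarith
  have h2 : Real.log T + Real.log k ≤ Real.log (Emb ε k δ) := by
    rw [← Real.log_mul (by positivity) (by positivity)]
    apply Real.log_le_log (by positivity)
    exact_mod_cast hmain
  linarith

end Pool.Agent.Results.MP_1fa774_co.Superlinear
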